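import Pool.Agent.H174.GP.StA
import Pool.Agent.H174.GP.StP
import Pool.Agent.H174.GP.StC

/-! Project GP: the far part of the sum. -/

set_option autoImplicit false

open MeasureTheory ProbabilityTheory Finset

namespace Pool.Agent.H59.GP174

open Pool.Agent.H174.GP

lemma sum_inv_sq (L d : ℕ) (hL : 1 ≤ L) : ∑ j ∈ Finset.Ioc L d, ((j : ℝ) ^ 2)⁻¹ ≤ (L : ℝ)⁻¹ := by
  rcases le_or_gt L d with h | h
  · refine (sum_Ioc_inv_sq_le_sub (by omega) h).trans ?_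
    have : (0 : ℝ) ≤ (d : ℝ)⁻¹ := by positivity
    linarith
  · rw [Finset.Ioc_eq_empty (by omega), Finset.sum_empty]
    positivity

theorem gp_contam (h1 : S_mgf) (h2 : S_chern) (h3 : S_Tq) : Pool.Agent.H174.GP.S_contam := by
  intro s2 hs2
  obtain ⟨Cm, hCm, hm⟩ := h1 s2 hs2
  refine ⟨2 * Real.exp (Cm / 16), by positivity, fun σ d L t hσ hL hd ht => ?_⟩
  have hL0 : (0 : ℝ) < L := by
    have : 0 < L := by omega
    exact_mod_cast this
  have hL1 : (1 : ℝ) ≤ L := by exact_mod_cast hL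
  have hs0 : 0 < Real.sqrt L := Real.sqrt_pos.2 hL0
  have hsq : Real.sqrt L ^ 2 = L := Real.sq_sqrt hL0.le
  set θ : ℝ := σ * Real.sqrt L / 4 with hθ
  have hθ0 : 0 ≤ θ := by positivity
  have hj : ∀ j ∈ Finset.Ioc L d, 0 < σ * (j : ℝ) ∧ σ * (j : ℝ) ≤ s2 ∧ |θ| ≤ σ * (j : ℝ) / 4 ∧ (0 : ℝ) < j := by
    intro j hj
    rw [Finset.mem_Ioc] at hj
    have hj0 : (L : ℝ) < j := by exact_mod_cast hj.1
    have hjd : (j : ℝ) ≤ d := by exact_mod_cast hj.2
    have hj1 : (0 : ℝ) < j := hL0.trans hj0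
    refine ⟨by positivity, (mul_le_mul_of_nonneg_left hjd hσ.le).trans hd, ?_, hj1⟩
    rw [abs_of_nonneg hθ0, hθ]
    have h4 : Real.sqrt L ≤ L := by
      nlinarith [Real.one_le_sqrt.2 hL1]
    have h5 : σ * Real.sqrt L ≤ σ * j := mul_le_mul_of_nonneg_left (h4.trans hj0.le) hσ.le
    linarith
  have hneg : ∀ (j : ℕ) (x : ℝ), -(θ * (Tq (σ * j) x : ℝ)) = (-θ) * (Tq (σ * j) x : ℝ) := fun j x => by ring
  have key := h2 (Finset.Ioc L d) (fun j x => (Tq (σ * j) x : ℝ)) (fun j => Cm * θ ^ 2 / (σ * j) ^ 2) θ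
    (t / (σ * Real.sqrt L)) hθ0
    (fun j hj' => by
      have h4 : Measurable (Tq (σ * j)) := (h3 (σ * j) (hj j hj').1).2.2.2.1
      exact (measurable_from_top (f := fun k : ℤ => (k : ℝ))).comp h4)
    (fun j hj' => by
      obtain ⟨a1, a2, a3, -⟩ := hj j hj'
      refine ⟨((hm (σ * j) θ a1 a2 a3).1).1, ?_⟩
      simp only [hneg]
      exact ((hm (σ * j) (-θ) a1 a2 (by rwa [abs_neg])).1).1)
    (fun j hj' => by
      obtain ⟨a1, a2, a3, -⟩ := hj j hj'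
      refine ⟨((hm (σ * j) θ a1 a2 a3).1).2, ?_⟩
      simp only [hneg]
      have h4 := ((hm (σ * j) (-θ) a1 a2 (by rwa [abs_neg])).1).2
      rwa [neg_sq] at h4)
  refine key.trans ?_
  have h4 : θ * (t / (σ * Real.sqrt L)) = t / 4 := by
    rw [hθ]
    field_simp
  have h5 : ∑ j ∈ Finset.Ioc L d, Cm * θ ^ 2 / (σ * (j : ℝ)) ^ 2 ≤ Cm / 16 := by
    have h6 : ∀ j ∈ Finset.Ioc L d, Cm * θ ^ 2 / (σ * (j : ℝ)) ^ 2 = Cm * L / 16 * ((j : ℝ) ^ 2)⁻¹ := by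
      intro j hj'
      obtain ⟨-, -, -, a4⟩ := hj j hj'
      rw [hθ, div_pow, mul_pow, hsq]
      field_simp
      norm_num
    rw [Finset.sum_congr rfl h6, ← Finset.mul_sum]
    have h7 := mul_le_mul_of_nonneg_left (sum_inv_sq L d hL) (show 0 ≤ Cm * L / 16 by positivity)
    refine h7.trans (le_of_eq ?_)
    field_simp
  rw [h4, mul_assoc, ← Real.exp_add]
  refine mul_le_mul_of_nonneg_left (Real.exp_le_exp.2 ?_) (by norm_num)
  linarith

end Pool.Agent.H59.GP174
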